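import Pool.Agent.helper60.DB.SpecM

/-!
# Row bm:Q2
-/

set_option autoImplicit false

namespace Pool.Agent.helper60.DB

theorem Q2 (h0 : Q0_stmt) : Q2_stmt := by
  intro H m n hm hn hp h10 h01 hl a b
  have hq := h0 H hp
  have e1 : m ≤ H 1 0 := by
    have h := hl 1 0
    have h' : m * m ≤ m * H 1 0 := by linarith [h, show m ^ 2 * 1 ^ 2 + m * n * 0 ^ 2 = m * m by ring]
    exact le_of_mul_le_mul_left h' hm
  have e2 : n ≤ H 0 1 := by
    have h := hl 0 1
    have h' : m * n ≤ m * H 0 1 := by linarith [h, show m ^ 2 * 0 ^ 2 + m * n * 1 ^ 2 = m * n by ring]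
    exact le_of_mul_le_mul_left h' hm
  have e3 : H 1 0 = m := le_antisymm h10 e1
  have e4 : H 0 1 = n := le_antisymm h01 e2
  have e5 : m + n ≤ H 1 1 := by
    have h := hl 1 1
    have h' : m * (m + n) ≤ m * H 1 1 := by
      linarith [h, show m ^ 2 * 1 ^ 2 + m * n * 1 ^ 2 = m * (m + n) by ring]
    exact le_of_mul_le_mul_left h' hm
  have e6 : m + n ≤ H 1 (-1) := by
    have h := hl 1 (-1)
    have h' : m * (m + n) ≤ m * H 1 (-1) := by
      linarith [h, show m ^ 2 * 1 ^ 2 + m * n * (-1) ^ 2 = m * (m + n) by ring]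
    exact le_of_mul_le_mul_left h' hm
  have e7 := hq 1 (-1)
  rw [e3, e4] at e7
  have e8 : H 1 1 - m - n = 0 := by linarith
  rw [hq a b, e3, e4, e8]
  ring

end Pool.Agent.helper60.DB
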